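import Pool.Agent.Y240.KF.Stm

set_option autoImplicit false
set_option linter.unusedSectionVars false

/-!
# The number of edges of a graph of maximum degree `D` without `K_{D+1}`
-/

namespace Pool.Agent.Y367.KF

open Finset
open scoped Classical

/-- The vertices of a component. -/
noncomputable def cs {V : Type} [Fintype V] (H : SimpleGraph V) (c : H.ConnectedComponent) :
    Finset V := univ.filter (fun x => H.connectedComponentMk x = c)

theorem mem_cs {V : Type} [Fintype V] {H : SimpleGraph V} {c : H.ConnectedComponent} {x : V} :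
    x ∈ cs H c ↔ H.connectedComponentMk x = c := by simp [cs]

theorem nbr_cs {V : Type} [Fintype V] {H : SimpleGraph V} {c : H.ConnectedComponent} {x y : V}
    (hx : x ∈ cs H c) (h : H.Adj x y) : y ∈ cs H c := by
  rw [mem_cs] at hx ⊢
  rw [← hx]
  exact (SimpleGraph.ConnectedComponent.connectedComponentMk_eq_of_adj h).symm

theorem comp_bound {V : Type} [Fintype V] (H : SimpleGraph V) (D : ℕ) (hD : 1 ≤ D)
    (hdeg : ∀ v, H.degree v ≤ D) (hfree : H.CliqueFree (D + 1)) (c : H.ConnectedComponent) :
    (D + 1) * (∑ x ∈ cs H c, H.degree x) + D * (D + 2) ≤ D * (D + 2) * (cs H c).card := by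
  have hne : (cs H c).Nonempty := by
    induction c using SimpleGraph.ConnectedComponent.ind with
    | h v => exact ⟨v, by simp [mem_cs]⟩
  have hcard : 1 ≤ (cs H c).card := hne.card_pos
  obtain ⟨w, hw⟩ : ∃ w, (cs H c).card = w + 1 := ⟨(cs H c).card - 1, by omega⟩
  have hsub : ∀ x ∈ cs H c, H.degree x ≤ w := by
    intro x hx
    rw [← SimpleGraph.card_neighborFinset_eq_degree]
    have h1 : H.neighborFinset x ⊆ (cs H c).erase x := by
      intro y hy
      rw [SimpleGraph.mem_neighborFinset] at hy
      exact mem_erase.2 ⟨hy.ne', nbr_cs hx hy⟩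
    have h2 := card_le_card h1
    rw [card_erase_of_mem hx, hw] at h2
    simpa using h2
  rcases lt_trichotomy (w + 1) (D + 1) with h | h | h
  · -- few vertices
    have h1 : ∑ x ∈ cs H c, H.degree x ≤ (w + 1) * w := by
      calc ∑ x ∈ cs H c, H.degree x ≤ ∑ x ∈ cs H c, w := sum_le_sum hsub
        _ = (w + 1) * w := by rw [sum_const, hw, smul_eq_mul]
    rw [hw]
    have h2 : (D + 1) * (w + 1) ≤ D * (D + 2) := by nlinarith
    calc (D + 1) * (∑ x ∈ cs H c, H.degree x) + D * (D + 2)
        ≤ (D + 1) * ((w + 1) * w) + D * (D + 2) := by gcongr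
      _ = ((D + 1) * (w + 1)) * w + D * (D + 2) := by ring
      _ ≤ (D * (D + 2)) * w + D * (D + 2) := by gcongr
      _ = D * (D + 2) * (w + 1) := by ring
  · -- D + 1 vertices
    have hwD : w = D := by omega
    subst hwD
    have h1 : ∃ a ∈ cs H c, ∃ b ∈ cs H c, a ≠ b ∧ ¬ H.Adj a b := by
      by_contra hcon
      push Not at hcon
      refine hfree (cs H c) ?_
      rw [SimpleGraph.isNClique_iff]
      refine ⟨?_, hw⟩
      intro a ha b hb hab
      exact hcon a ha b hb hab
    obtain ⟨a, ha, b, hb, hab, hadj⟩ := h1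
    have key : ∀ x y, x ∈ cs H c → y ∈ cs H c → x ≠ y → ¬ H.Adj x y → H.degree x + 1 ≤ w := by
      intro x y hx hy hxy hn
      rw [← SimpleGraph.card_neighborFinset_eq_degree]
      have h1 : H.neighborFinset x ⊆ ((cs H c).erase x).erase y := by
        intro z hz
        rw [SimpleGraph.mem_neighborFinset] at hz
        refine mem_erase.2 ⟨?_, mem_erase.2 ⟨hz.ne', nbr_cs hx hz⟩⟩
        rintro rfl
        exact hn hz
      have h2 := card_le_card h1
      rw [card_erase_of_mem (mem_erase.2 ⟨hxy.symm, hy⟩), card_erase_of_mem hx, hw] at h2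
      omega
    have hsum : ∑ x ∈ cs H c, (H.degree x + ((if x = a then 1 else 0) + (if x = b then 1 else 0)))
        ≤ ∑ x ∈ cs H c, w := by
      refine sum_le_sum fun x hx => ?_
      by_cases h1 : x = a
      · subst h1
        rw [if_pos rfl, if_neg hab]
        have := key x b hx hb hab hadj
        omega
      · by_cases h2 : x = b
        · subst h2
          rw [if_neg h1, if_pos rfl]
          have := key x a hx ha h1 (fun h => hadj h.symm)
          omega
        · rw [if_neg h1, if_neg h2]
          exact hdeg x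
    rw [sum_add_distrib, sum_add_distrib, sum_ite_eq', sum_ite_eq', if_pos ha, if_pos hb,
      sum_const, hw, smul_eq_mul] at hsum
    rw [hw]
    nlinarith
  · -- many vertices
    have h1 : ∑ x ∈ cs H c, H.degree x ≤ (w + 1) * D := by
      calc ∑ x ∈ cs H c, H.degree x ≤ ∑ x ∈ cs H c, D := sum_le_sum fun x _ => hdeg x
        _ = (w + 1) * D := by rw [sum_const, hw, smul_eq_mul]
    rw [hw]
    obtain ⟨e, rfl⟩ : ∃ e, w = D + 1 + e := ⟨w - (D + 1), by omega⟩
    calc (D + 1) * (∑ x ∈ cs H c, H.degree x) + D * (D + 2)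
        ≤ (D + 1) * ((D + 1 + e + 1) * D) + D * (D + 2) := by gcongr
      _ ≤ D * (D + 2) * (D + 1 + e + 1) := by nlinarith

theorem dens : Pool.Agent.Y240.KF.StDens := by
  intro V _ H D hD hdeg hfree
  have : Fintype H.ConnectedComponent := Fintype.ofFinite _
  have h1 : H.edgeSet.ncard = H.edgeFinset.card := by
    rw [Set.ncard_eq_toFinset_card']
    congr 1
  have h2 := H.sum_degrees_eq_twice_card_edges
  have h3 : ∑ c : H.ConnectedComponent, ∑ x ∈ cs H c, H.degree x = ∑ x, H.degree x :=
    Finset.sum_fiberwise univ (fun x => H.connectedComponentMk x) (fun x => H.degree x)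
  have h4 : ∑ c : H.ConnectedComponent, (cs H c).card = Fintype.card V := by
    rw [← Finset.card_univ]
    exact (Finset.card_eq_sum_card_fiberwise (f := fun x => H.connectedComponentMk x)
      (s := univ) (t := univ) (fun x _ => mem_coe.2 (mem_univ _))).symm
  have h5 := Finset.sum_le_sum (s := (univ : Finset H.ConnectedComponent))
    (fun c _ => comp_bound H D hD hdeg hfree c)
  rw [Finset.sum_add_distrib, ← Finset.mul_sum, h3, Finset.sum_const, ← Finset.mul_sum, h4,
    Finset.card_univ, smul_eq_mul, h2] at h5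
  rw [h1, Nat.card_eq_fintype_card]
  linarith

end Pool.Agent.Y367.KF
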